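import Pool.Agent.N436.DF.All
import Pool.Agent.N436.DF.Stm2

/-!
# Project DF, second batch: the case `S \ X = {w}`
-/

set_option autoImplicit false
set_option maxHeartbeats 400000

namespace Pool.Agent.N721.DF

open Finset Pool.Agent.N436.DF Pool.Agent.N433.DF

theorem small2 (hs : S_sav2) (hT : S_T2) (hf : S_force12) : S_small2 := by
  intro V _ P H S X u w top hSX
  have hg : 0 < rho P H S + 2 * P.b := by
    have := top.mc.hyp S (Finset.Subset.refl S) ⟨u, top.sub top.hu⟩
    linarith
  have hok := top.mc.ok
  have hj := P.hj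
  have hd := P.hd
  have hab := P.hab
  have hD2 := P.hD2
  have hD1 := P.hD1
  have hDa := P.hDa
  have hb := P.hb
  have hjk := P.hjk
  have hdb := top.rng.hdb
  have h2b := top.rng.h2b
  have hwS : w ∈ S := (mem_sdiff.1 top.hw).1
  have hwX : w ∉ X := (mem_sdiff.1 top.hw).2
  have huS : u ∈ S := top.sub top.hu
  have ha : 0 < P.a := by omega
  have hk2 : 2 ≤ P.k := by
    by_contra hc
    have h1 : P.k = 1 := by omega
    rw [h1] at h2b
    omega
  have hcap1 := hok.c1_le w
  have hcap2 := hok.c2_le w
  -- the colouring with `f u = true`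
  obtain ⟨f, p, hcol, hfu⟩ := hf V P H S X u w u w true top top.hu top.hw (Or.inl top.huw)
  have h1 := hT V P H S X u w f p top hcol
  rw [hSX, Finset.sum_singleton] at h1
  have hs2 : sav P H X f w < P.a := by linarith [top.le_a]
  obtain ⟨k0, k1, k2, k3, k4, k5, k6⟩ := killRho_h V P H X f hok
  obtain ⟨q1, q2, q3, q4, q5, q6⟩ := k2 w
  have hn1 : 1 ≤ nr H X f true w := nr_ge hok top.hu hfu top.huw
  obtain ⟨s1, s2, s3, s4⟩ := hs V P H X f w hok
  have t1 := s1 hn1
  have hA1 : P.a * (H.c true w + 1) ≤ P.D - P.d := by
    rw [← hD1]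
    exact mul_le_mul_of_nonneg_left (by omega) ha.le
  have hdp1 : 0 ≤ P.d * pr H X f true w := mul_nonneg (by omega) q3
  have hap2 : 0 ≤ P.a * pr H X f false w := mul_nonneg (by omega) q4
  have hn1' : nr H X f true w = 1 := by
    by_contra hc
    have h2 : 2 ≤ nr H X f true w := by omega
    have h3 : P.D * 2 ≤ P.D * nr H X f true w := mul_le_mul_of_nonneg_left h2 (by omega)
    linarith
  rw [hn1'] at t1
  have hc1 : H.c true w = P.j := by
    by_contra hc
    have h2 : H.c true w + 1 ≤ P.j := by omega
    have h3 : P.a * (H.c true w + 1) ≤ P.a * P.j := mul_le_mul_of_nonneg_left h2 (by omega)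
    have h4 : P.a * P.j = P.D - P.d - P.a := by linarith
    linarith
  have hA : P.a * (H.c true w + 1) = P.D - P.d := by rw [hc1, hD1]
  have hp2 : pr H X f false w = 0 := by
    by_contra hc
    have h3 : 1 ≤ pr H X f false w := by omega
    have h4 : P.a * 1 ≤ P.a * pr H X f false w := mul_le_mul_of_nonneg_left h3 (by omega)
    linarith
  -- the colouring with `f2 u = false`
  have hc2 : P.k - 1 ≤ H.c false w := by
    obtain ⟨f2, p2, hcol2, hf2u⟩ := hf V P H S X u w u w false top top.hu top.hw (Or.inl top.huw)
    have h2 := hT V P H S X u w f2 p2 top hcol2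
    rw [hSX, Finset.sum_singleton] at h2
    have h3 : sav P H X f2 w < P.a := by linarith [top.le_a]
    have hn2 : 1 ≤ nr H X f2 false w := nr_ge hok top.hu hf2u top.huw
    have h4 := (hs V P H X f2 w hok).2.1 hn2
    have h5 : P.D * 1 ≤ P.D * nr H X f2 false w := mul_le_mul_of_nonneg_left hn2 (by omega)
    by_contra hc
    have h6 : H.c false w + 1 ≤ P.k - 1 := by omega
    have h7 : P.b * (H.c false w + 1) ≤ P.b * (P.k - 1) :=
      mul_le_mul_of_nonneg_left h6 (by omega)
    have h8 : P.b * (P.k - 1) = P.D - 2 * P.b := by linarith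
    linarith
  -- the kill system at `w`
  obtain ⟨Y, hY, hYne, hYr⟩ := kf_h V P H S X f p top.mc top.sub ⟨u, top.hu⟩ hcol
  rw [hSX] at hY
  have hYw : Y = {w} := (Finset.subset_singleton_iff.1 hY).resolve_left hYne.ne_empty
  subst hYw
  have hdis : Disjoint ({w} : Finset V) X := by
    rw [Finset.disjoint_singleton_left]
    exact hwX
  have h2 := k1 {w} hdis
  rw [← h2] at hYr
  have h3 : rho P (kill H X f) {w} = 2 * wt P (kill H X f) w := by
    unfold rho
    rw [Finset.sum_singleton, Finset.sum_singleton, Finset.sum_singleton]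
    have h4 : ew P (kill H X f) w w = 0 := by
      unfold ew
      rw [k0.r0, k0.m0]
      ring
    rw [h4, sub_zero]
  rw [h3] at hYr
  have hkc1 : (kill H X f).c true w = -1 := by
    show (if 0 < nr H X f true w then (-1 : ℤ) else _) = -1
    rw [if_pos (by omega)]
  have hwt : wt P (kill H X f) w = P.b * (kill H X f).c false w := by
    unfold wt
    rw [hkc1]
    ring
  rw [hwt] at hYr
  have hkc2 : (kill H X f).c false w = if 0 < nr H X f false w then -1 else
      max (-1) (H.c false w - pr H X f true w) := rfl
  have hkc2' : (kill H X f).c false w = -1 := by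
    have h4 := k0.c_ge false w
    by_contra hc
    have h5 : 0 ≤ (kill H X f).c false w := by omega
    have h6 : 0 ≤ P.b * (kill H X f).c false w := mul_nonneg (by omega) h5
    linarith
  have hn2 : 1 ≤ nr H X f false w := by
    by_contra hc
    have hn0 : nr H X f false w = 0 := by omega
    rw [if_neg (by omega), hkc2'] at hkc2
    have hp1 : H.c false w + 1 ≤ pr H X f true w := by
      by_contra hc2
      have h5 : 0 ≤ H.c false w - pr H X f true w := by omega
      have h6 := le_max_right (-1) (H.c false w - pr H X f true w)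
      omega
    have e1 : ∑ x ∈ X, ew P H x w = P.D + P.a * pr H X f true w := by
      have e2 : ∑ x ∈ X, ew P H x w = P.D * ∑ x ∈ X, H.r x w + P.a * ∑ x ∈ X, H.m x w := by
        unfold ew
        rw [Finset.sum_add_distrib, Finset.mul_sum, Finset.mul_sum]
      have e3 : ∑ x ∈ X, H.r x w = nr H X f true w + nr H X f false w := split _
      have e4 : ∑ x ∈ X, H.m x w = pr H X f true w + pr H X f false w := split _
      rw [e2, e3, e4, hn1', hn0, hp2]
      ring
    have e5 : sav P H X f w = ∑ x ∈ X, ew P H x w - (wt P H w - wt P (kill H X f) w) := rfl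
    have e6 : wt P H w = P.D - P.d + P.b * H.c false w := by
      unfold wt
      rw [hA]
    have e7 : wt P (kill H X f) w = - P.b := by
      rw [hwt, hkc2']
      ring
    rw [e1, e6, e7] at e5
    have h7 : P.a * (H.c false w + 1) ≤ P.a * pr H X f true w :=
      mul_le_mul_of_nonneg_left hp1 (by omega)
    have h8 : P.d * P.k ≤ P.d * (H.c false w + 1) := mul_le_mul_of_nonneg_left (by omega) (by omega)
    have h9 : P.a * (H.c false w + 1) = P.b * (H.c false w + 1) + P.d * (H.c false w + 1) := by
      rw [hab]
      ring
    linarith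
  have hB1 : P.b * (H.c false w + 1) ≤ P.D := by
    rw [← hD2]
    exact mul_le_mul_of_nonneg_left (by omega) (by omega)
  have t3 := s3 hn1 hn2
  rw [hn1', hp2, hA] at t3
  have hn2' : nr H X f false w = 1 := by
    by_contra hc
    have h5 : 2 ≤ nr H X f false w := by omega
    have h6 : P.D * 2 ≤ P.D * nr H X f false w := mul_le_mul_of_nonneg_left h5 (by omega)
    have h7 : 0 ≤ P.a * pr H X f true w := mul_nonneg (by omega) q3
    nlinarith
  rw [hn2'] at t3
  have hp1 : pr H X f true w = 0 := by
    by_contra hc
    have h3 : 1 ≤ pr H X f true w := by omega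
    have h4 : P.a * 1 ≤ P.a * pr H X f true w := mul_le_mul_of_nonneg_left h3 (by omega)
    linarith
  have hc1p : 1 ≤ H.c true w := by omega
  have hc2p : 1 ≤ H.c false w := by omega
  -- the second real neighbour
  obtain ⟨u', hu'X, hfu', hru'⟩ : ∃ u' ∈ X, f u' = false ∧ H.r u' w = 1 := by
    by_contra hc
    push Not at hc
    have h5 : nr H X f false w = 0 := by
      unfold nr
      refine Finset.sum_eq_zero fun x hx => ?_
      rw [mem_filter] at hx
      rcases hok.r01 x w with h | h
      · exact h
      · exact absurd h (hc x hx.1 hx.2)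
    omega
  have hne : u ≠ u' := by
    rintro rfl
    rw [hfu] at hfu'
    exact absurd hfu' (by decide)
  have hcase : ∀ x ∈ S, x ∈ X ∨ x = w := by
    intro x hx
    by_cases hxX : x ∈ X
    · exact Or.inl hxX
    · right
      have : x ∈ S \ X := mem_sdiff.2 ⟨hx, hxX⟩
      rw [hSX] at this
      exact mem_singleton.1 this
  refine z_h V P H S w u u' top.mc hwS huS (top.sub hu'X) hne (by rw [hok.rsymm]; exact top.huw)
    (by rw [hok.rsymm]; exact hru') ?_ ?_ hc1p hc2p
  · intro x hx hxu hxu'
    rcases hcase x hx with hxX | rfl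
    · rw [hok.rsymm]
      rcases hok.r01 x w with h | h
      · exact h
      · exfalso
        rcases hfx : f x with _ | _
        · have := nr_ge2 hok hxX hfx h hu'X hfu' hru' hxu'
          omega
        · have := nr_ge2 hok hxX hfx h top.hu hfu top.huw hxu
          omega
    · exact hok.r0 x
  · intro x hx
    rcases hcase x hx with hxX | rfl
    · rw [hok.msymm]
      have h5 := hok.m_nn x w
      have h6 : H.m x w ≤ 0 := by
        rcases hfx : f x with _ | _
        · have := one_le_sum (s := X.filter (fun x => f x = false)) (g := fun x => H.m x w)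
            (fun y _ => hok.m_nn y w) (x := x) (by simp [hxX, hfx])
          have e : ∑ z ∈ X.filter (fun x => f x = false), H.m z w = pr H X f false w := rfl
          simp only [e, hp2] at this
          exact this
        · have := one_le_sum (s := X.filter (fun x => f x = true)) (g := fun x => H.m x w)
            (fun y _ => hok.m_nn y w) (x := x) (by simp [hxX, hfx])
          have e : ∑ z ∈ X.filter (fun x => f x = true), H.m z w = pr H X f true w := rfl
          simp only [e, hp1] at this
          exact this
      omega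
    · exact hok.m0 x

end Pool.Agent.N721.DF
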